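import Mathlib
import Pool.Agent.R282.OA

/-!
# The join of orthogonally additive operators is not preserved by Dedekind completion

We give Riesz spaces `E`, `F` (with `F` Archimedean), orthogonally additive `S, T : E → F` with
join `W = S ∨ T` in `O(E,F)`, and `x` such that `{S(u) + T(v) : x = u ⊔ v}` has an upper bound
`b < W(x)` in `F`.  So `R_1(x) ≤ b < W(x)` in every Dedekind completion of `F`.
-/

namespace Pool.Agent.Results.MP_78978c_an.JoinLarger

open Pool.Agent.R282.OA

/-- For every Riesz space `G` and every linear order embedding `J : F → G` (in particular for the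
inclusion of `F` into a Dedekind completion), the supremum `R_1(x)` of
`{J(S(u)) + J(T(v)) : x = u ⊔ v}`, if it exists, differs from `J(W(x))`. -/
def Gap {E F : Type} [AddCommGroup E] [Lattice E] [AddCommGroup F] [Lattice F] [Module ℝ F]
    (S T W : E → F) (x : E) : Prop :=
  ∀ (G : Type) [AddCommGroup G] [Lattice G] [Module ℝ G] [IsOrderedAddMonoid G]
    [PosSMulMono ℝ G] (J : F →ₗ[ℝ] G), (∀ a b, J a ≤ J b ↔ a ≤ b) →
    ∀ g, IsLUB (J '' splitSet S T x) g → g ≠ J (W x)

/-- **Main result** (Q1 of MP_78978c_an is disproved). -/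
theorem result : ∃ (E F : Type) (_ : AddCommGroup E) (_ : Lattice E) (_ : Module ℝ E)
    (_ : IsOrderedAddMonoid E) (_ : PosSMulMono ℝ E) (_ : AddCommGroup F) (_ : Lattice F)
    (_ : Module ℝ F) (_ : IsOrderedAddMonoid F) (_ : PosSMulMono ℝ F),
    ArchRiesz F ∧ ∃ (S T W : E → F) (x : E), OrthAdd S ∧ OrthAdd T ∧ IsJoin S T W ∧
      (∃ b : F, b ∈ upperBounds (splitSet S T x) ∧ b < W x) ∧ Gap S T W x := by
  refine ⟨ℕ → ℝ, FF, inferInstance, inferInstance, inferInstance, inferInstance, inferInstance,
    inferInstance, inferInstance, inferInstance, inferInstance, inferInstance,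
    arch_FF, SS, TT, WW, ind Set.univ, orth_SS, orth_TT, isJoin, ?_, ?_⟩
  · refine ⟨cst (1 / 2), half_bound _, fun s => ?_, fun h => ?_⟩
    · rw [fn_cst, fn_WW, one_ind, m_univ]; norm_num
    · have := h []
      rw [fn_cst, fn_WW, one_ind, m_univ] at this
      norm_num at this
  · intro G _ _ _ _ _ J hJ g hg he
    have h1 : g ≤ J (cst (1 / 2)) := by
      refine hg.2 ?_
      rintro _ ⟨w, hw, rfl⟩
      exact (hJ _ _).mpr (half_bound _ hw)
    rw [he, hJ] at h1
    have := h1 []
    rw [fn_cst, fn_WW, one_ind, m_univ] at this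
    norm_num at this

end Pool.Agent.Results.MP_78978c_an.JoinLarger
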